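import Pool.Agent.Lib.MP_405077_mp.Defs

set_option autoImplicit false

open MeasureTheory Set Filter Topology

namespace Pool.Agent.Lib.MP_405077_mp.H35

open Pool.Agent.Lib.MP_405077_mp

/-- A convex nonpositive function on `(0,∞)` has at every point a supporting line of nonpositive
slope. -/
theorem support_line {E : ℝ → ℝ} (hc : ∀ x y a b : ℝ, 0 < x → 0 < y → 0 ≤ a → 0 ≤ b → a + b = 1 →
    E (a * x + b * y) ≤ a * E x + b * E y) (hneg : ∀ x, 0 < x → E x ≤ 0) {lam : ℝ} (hl : 0 < lam) :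
    ∃ s : ℝ, 0 ≤ s ∧ ∀ x, 0 < x → E lam - s * (x - lam) ≤ E x := by
  have hconv : ConvexOn ℝ (Ioi (0 : ℝ)) E := by
    refine ⟨convex_Ioi 0, ?_⟩
    intro x hx y hy a b ha hb hab
    simpa [smul_eq_mul] using hc x y a b hx hy ha hb hab
  -- slopes from the left
  set S : Set ℝ := {t | ∃ x, 0 < x ∧ x < lam ∧ t = (E lam - E x) / (lam - x)} with hS
  have hne : S.Nonempty := ⟨_, lam / 2, by positivity, by linarith, rfl⟩
  have hub : ∀ y, lam < y → ∀ t ∈ S, t ≤ (E y - E lam) / (y - lam) := by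
    rintro y hy t ⟨x, hx0, hx, rfl⟩
    exact hconv.slope_mono_adjacent (mem_Ioi.2 hx0) (mem_Ioi.2 (hl.trans hy)) hx hy
  have hbdd : BddAbove S := ⟨_, hub (lam + 1) (by linarith)⟩
  set c := sSup S with hcdef
  have hright : ∀ y, lam < y → c ≤ (E y - E lam) / (y - lam) := by
    intro y hy
    exact csSup_le hne (hub y hy)
  have hleft : ∀ x, 0 < x → x < lam → (E lam - E x) / (lam - x) ≤ c := by
    intro x hx0 hx
    exact le_csSup hbdd ⟨x, hx0, hx, rfl⟩
  have hline : ∀ x, 0 < x → E lam + c * (x - lam) ≤ E x := by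
    intro x hx
    rcases lt_trichotomy x lam with h | h | h
    · have h1 := hleft x hx h
      rw [div_le_iff₀ (by linarith)] at h1
      linarith
    · subst h; simp
    · have h1 := hright x h
      rw [le_div_iff₀ (by linarith)] at h1
      linarith
  have hc0 : c ≤ 0 := by
    by_contra hpos
    push Not at hpos
    -- take x large
    have hx : 0 < lam + (1 + |E lam|) / c := by positivity
    have h1 := hline _ hx
    have h2 := hneg _ hx
    have h3 : c * (lam + (1 + |E lam|) / c - lam) = 1 + |E lam| := by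
      field_simp
      ring
    rw [h3] at h1
    have h4 := neg_abs_le (E lam)
    linarith
  refine ⟨-c, by linarith, fun x hx => ?_⟩
  have := hline x hx
  linarith

theorem fun0_mu (γ τ μ : ℝ) (V σ : E3 → ℝ) : fun0 γ τ μ V σ = fun0 γ τ 0 V σ + μ * ∫ x, σ x := by
  unfold fun0
  ring

theorem fun0_zero_int {γ τ : ℝ} {V σ : E3 → ℝ} (hσ : Adm σ) (h0 : ∫ x, σ x = 0) :
    fun0 γ τ 0 V σ = 0 := by
  have hae : σ =ᵐ[volume] 0 := (integral_eq_zero_iff_of_nonneg hσ.nonneg hσ.int).1 h0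
  have h1 : kin σ = 0 := by
    unfold kin
    rw [integral_eq_zero_of_ae]
    · simp
    · filter_upwards [hae] with x hx
      rw [hx]
      simp
  have h2 : ∫ x, V x * σ x = 0 := by
    apply integral_eq_zero_of_ae
    filter_upwards [hae] with x hx
    rw [hx]
    simp
  have h3 : dir σ = 0 := by
    unfold dir
    rw [integral_eq_zero_of_ae]
    · simp
    · filter_upwards [hae] with x hx
      rw [hx]
      simp
  unfold fun0
  rw [h1, h2, h3]
  simp

theorem adm_zero : Adm (fun _ => (0 : ℝ)) := by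
  refine ⟨fun _ => le_refl _, integrable_zero _ _ _, ?_⟩
  have : (fun _ : E3 => (0 : ℝ) ^ (5 / 3 : ℝ)) = fun _ => 0 := by
    funext x
    rw [Real.zero_rpow (by norm_num)]
  rw [this]
  exact integrable_zero _ _ _

/-- LEG. -/
theorem leg (hL : LimStatement) (hB : BelowStatement) (hC : ConvStatement) : LegStatement := by
  intro k z R γ τ₁ τ₂ lam hz hγ hτ₁ hτ hlam
  have hτ₂ : 0 < τ₂ := lt_of_lt_of_le hτ₁ hτ
  -- the sets of values
  set T : ℝ → ℝ → Set ℝ := fun τ l =>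
    {t : ℝ | ∃ σ : E3 → ℝ, Adm σ ∧ ∫ x, σ x = l ∧ t = fun0 γ τ 0 (nuc z R) σ} with hT
  have heinf : ∀ τ l, einf z R γ τ l = sInf (T τ l) := fun τ l => rfl
  rcases hlam.eq_or_lt with h0 | hpos
  · -- lam = 0
    have hz0 : ∀ τ, T τ 0 = {0} := by
      intro τ
      ext t
      simp only [hT, mem_ofPred_eq, mem_singleton_iff]
      constructor
      · rintro ⟨σ, hσ, hi, rfl⟩
        exact fun0_zero_int hσ hi
      · rintro rfl
        exact ⟨fun _ => 0, adm_zero, by simp, (fun0_zero_int adm_zero (by simp)).symm⟩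
    rw [← h0, heinf, heinf, hz0, hz0]
  -- facts at τ > 0
  have hbdd : ∀ τ, 0 < τ → ∀ l, 0 < l → BddBelow (T τ l) := by
    intro τ ht l hl
    obtain ⟨⟨C, hC1⟩, -⟩ := hB k z R γ τ hz hγ ht l hl
    refine ⟨C, ?_⟩
    rintro t ⟨σ, hσ, hi, rfl⟩
    exact hC1 σ hσ hi
  have hnon : ∀ τ, 0 < τ → ∀ l, 0 < l → (T τ l).Nonempty := by
    intro τ ht l hl
    obtain ⟨-, h2⟩ := hB k z R γ τ hz hγ ht l hl
    obtain ⟨σ, hσ, hi, -⟩ := h2 1 one_pos
    exact ⟨_, σ, hσ, hi, rfl⟩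
  set E : ℝ → ℝ := fun l => einf z R γ τ₂ l with hE
  have hEle : ∀ σ : E3 → ℝ, Adm σ → 0 < ∫ x, σ x → E (∫ x, σ x) ≤ fun0 γ τ₂ 0 (nuc z R) σ := by
    intro σ hσ hi
    exact csInf_le (hbdd τ₂ hτ₂ _ hi) ⟨σ, hσ, rfl, rfl⟩
  have hEneg : ∀ x, 0 < x → E x ≤ 0 := by
    intro x hx
    refine le_of_forall_pos_le_add (fun δ hδ => ?_)
    obtain ⟨-, h2⟩ := hB k z R γ τ₂ hz hγ hτ₂ x hx
    obtain ⟨σ, hσ, hi, hle⟩ := h2 δ hδ
    have := hEle σ hσ (by rw [hi]; exact hx)
    rw [hi] at this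
    linarith
  have hEconv : ∀ x y a b : ℝ, 0 < x → 0 < y → 0 ≤ a → 0 ≤ b → a + b = 1 →
      E (a * x + b * y) ≤ a * E x + b * E y := by
    intro x y a b hx hy ha hb hab
    refine le_of_forall_pos_le_add (fun δ hδ => ?_)
    obtain ⟨t₁, ⟨σ₁, hσ₁, hi₁, rfl⟩, hlt₁⟩ := exists_lt_of_csInf_lt (hnon τ₂ hτ₂ x hx)
      (show sInf (T τ₂ x) < E x + δ by show E x < E x + δ; linarith)
    obtain ⟨t₂, ⟨σ₂, hσ₂, hi₂, rfl⟩, hlt₂⟩ := exists_lt_of_csInf_lt (hnon τ₂ hτ₂ y hy)
      (show sInf (T τ₂ y) < E y + δ by show E y < E y + δ; linarith)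
    obtain ⟨hadm, hle⟩ := hC k z R γ τ₂ hz hγ hτ₂ σ₁ σ₂ a b hσ₁ hσ₂ ha hb hab
    have hint : ∫ p, (a * σ₁ p + b * σ₂ p) = a * x + b * y := by
      rw [integral_add (hσ₁.int.const_mul a) (hσ₂.int.const_mul b), integral_const_mul,
        integral_const_mul, hi₁, hi₂]
    have hpos' : 0 < a * x + b * y := by
      rcases ha.eq_or_lt with h | h
      · have : b = 1 := by linarith
        rw [← h, this]; linarith
      · have := mul_pos h hx
        have := mul_nonneg hb hy.le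
        linarith
    have h3 := hEle _ hadm (by rw [hint]; exact hpos')
    rw [hint] at h3
    have h4 : a * fun0 γ τ₂ 0 (nuc z R) σ₁ ≤ a * (E x + δ) := mul_le_mul_of_nonneg_left hlt₁.le ha
    have h5 : b * fun0 γ τ₂ 0 (nuc z R) σ₂ ≤ b * (E y + δ) := mul_le_mul_of_nonneg_left hlt₂.le hb
    have h6 : a * (E x + δ) + b * (E y + δ) = a * E x + b * E y + δ := by
      have : a * δ + b * δ = δ := by rw [← add_mul, hab, one_mul]
      linarith
    linarith
  obtain ⟨s, hs0, hs⟩ := support_line hEconv hEneg hpos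
  -- lower bound of the functional with multiplier
  have hzero : E lam + s * lam ≤ 0 := by
    refine le_of_forall_pos_le_add (fun δ hδ => ?_)
    -- take x = δ / (s + 1)
    have hx : 0 < δ / (s + 1) := by positivity
    have h1 := hs _ hx
    have h2 := hEneg _ hx
    have h3 : s * (δ / (s + 1)) ≤ δ := by
      rw [← mul_div_assoc, div_le_iff₀ (by positivity)]
      nlinarith
    linarith [show s * (δ / (s + 1) - lam) = s * (δ / (s + 1)) - s * lam by ring]
  have hlow : ∀ ρ : E3 → ℝ, Adm ρ → ∀ μ, s ≤ μ → E lam + s * lam ≤ fun0 γ τ₂ μ (nuc z R) ρ := by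
    intro ρ hρ μ hμ
    have hN : 0 ≤ ∫ x, ρ x := integral_nonneg hρ.nonneg
    rw [fun0_mu]
    rcases hN.eq_or_lt with h | h
    · rw [fun0_zero_int hρ h.symm, ← h]
      simpa using hzero
    · have h1 := hEle ρ hρ h
      have h2 := hs _ h
      have h3 : s * (∫ x, ρ x) ≤ μ * ∫ x, ρ x := mul_le_mul_of_nonneg_right hμ hN
      linarith [show s * ((∫ x, ρ x) - lam) = s * (∫ x, ρ x) - s * lam by ring]
  have hmain : ∀ σ : E3 → ℝ, Adm σ → ∫ x, σ x = lam → E lam ≤ fun0 γ τ₁ 0 (nuc z R) σ := by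
    intro σ hσ hi
    refine le_of_forall_pos_le_add (fun δ hδ => ?_)
    set ε := δ / (2 * (lam + 1)) with hε
    have hε0 : 0 < ε := by positivity
    obtain ⟨ρ, hρ, hle⟩ := hL k z R γ (s + ε) τ₁ τ₂ hz hγ (by linarith) hτ₁ hτ σ (δ / 2) hσ
      (by positivity)
    have h1 := hlow ρ hρ (s + ε) (by linarith)
    rw [fun0_mu γ τ₁ (s + ε), hi] at hle
    have h2 : ε * lam ≤ δ / 2 := by
      rw [hε, div_mul_eq_mul_div, div_le_div_iff₀ (by positivity) (by positivity)]
      nlinarith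
    linarith [show (s + ε) * lam = s * lam + ε * lam by ring]
  rw [heinf τ₁]
  refine le_csInf (hnon τ₁ hτ₁ lam hpos) ?_
  rintro t ⟨σ, hσ, hi, rfl⟩
  exact hmain σ hσ hi

end Pool.Agent.Lib.MP_405077_mp.H35
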