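import Pool.Agent.Lib.MP_405077_mp.Defs
import Pool.Agent.Lib.MP_405077_mp.H94.Basic

set_option autoImplicit false

open MeasureTheory Set Filter Topology

namespace Pool.Agent.Lib.MP_405077_mp.H35

open Pool.Agent.Lib.MP_405077_mp

/-- A function whose increments are bounded above by the square of the step does not increase. -/
theorem le_of_quadratic_steps {f : ℝ → ℝ} {a b C : ℝ} (hab : a ≤ b)
    (h : ∀ s t, a ≤ s → s ≤ t → t ≤ b → f t ≤ f s + C * (t - s) ^ 2) : f b ≤ f a := by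
  have key : ∀ n : ℕ, f b ≤ f a + C * (b - a) ^ 2 * (1 / ((n : ℝ) + 1)) := by
    intro n
    have hn : (0 : ℝ) < (n : ℝ) + 1 := by positivity
    set δ := (b - a) / ((n : ℝ) + 1) with hδ
    have hδ0 : 0 ≤ δ := div_nonneg (by linarith) hn.le
    have hδn : ((n : ℝ) + 1) * δ = b - a := by rw [hδ]; field_simp
    have hind : ∀ k : ℕ, k ≤ n + 1 → f (a + k * δ) ≤ f a + k * (C * δ ^ 2) := by
      intro k
      induction k with
      | zero => intro _; simp
      | succ k ih =>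
        intro hk
        have h1 := ih (by omega)
        have hk' : ((k : ℝ) + 1) ≤ (n : ℝ) + 1 := by exact_mod_cast hk
        have h2 := h (a + k * δ) (a + (k + 1 : ℕ) * δ) (by have : 0 ≤ (k : ℝ) * δ := by positivity
                                                           linarith)
          (by push_cast; nlinarith) (by push_cast; nlinarith)
        have h3 : a + (k + 1 : ℕ) * δ - (a + k * δ) = δ := by push_cast; ring
        rw [h3] at h2
        push_cast at h2 ⊢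
        linarith
    have h1 := hind (n + 1) le_rfl
    have h2 : a + ((n + 1 : ℕ) : ℝ) * δ = b := by push_cast; linarith
    rw [h2] at h1
    have h3 : ((n + 1 : ℕ) : ℝ) * (C * δ ^ 2) = C * (b - a) ^ 2 * (1 / ((n : ℝ) + 1)) := by
      rw [hδ]; push_cast; field_simp
    linarith
  have hlim : Tendsto (fun n : ℕ => f a + C * (b - a) ^ 2 * (1 / ((n : ℝ) + 1))) atTop
      (𝓝 (f a + C * (b - a) ^ 2 * 0)) :=
    (tendsto_one_div_add_atTop_nhds_zero_nat.const_mul _).const_add _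
  have := ge_of_tendsto' hlim key
  simpa using this

theorem BC_rpow {ρ : E3 → ℝ} (h : BC ρ) (h0 : ∀ x, 0 ≤ ρ x) :
    BC (fun x => ρ x ^ (5 / 3 : ℝ)) := by
  obtain ⟨M, hM⟩ := h.bdd
  obtain ⟨r, hr⟩ := h.supp
  refine ⟨h.meas.pow_const _, ⟨M ^ (5 / 3 : ℝ), fun x => ?_⟩, ⟨r, fun x hx => ?_⟩⟩
  · rw [abs_of_nonneg (Real.rpow_nonneg (h0 x) _)]
    exact Real.rpow_le_rpow (h0 x) ((le_abs_self _).trans (hM x)) (by norm_num)
  · rw [hr x hx, Real.zero_rpow (by norm_num)]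

theorem BC_adm {ρ : E3 → ℝ} (h : BC ρ) (h0 : ∀ x, 0 ≤ ρ x) : Adm ρ :=
  ⟨h0, H94.BC_integrable h, H94.BC_integrable (BC_rpow h h0)⟩

theorem IsTF_nonneg {γ μ : ℝ} {m ρ : E3 → ℝ} (hγ : 0 < γ) (h : IsTF γ μ m ρ) (x : E3) :
    0 ≤ ρ x := by
  rw [h.eq x]
  exact Real.rpow_nonneg (div_nonneg (le_max_right _ _) hγ.le) _

/-- Pointwise Thomas-Fermi equation multiplied by the density. -/
theorem IsTF_point {γ μ : ℝ} {m ρ : E3 → ℝ} (hγ : 0 < γ) (h : IsTF γ μ m ρ) (x : E3) :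
    γ * ρ x ^ (5 / 3 : ℝ) = ρ x * pot m x - ρ x * pot ρ x - μ * ρ x := by
  set a := max (pot m x - pot ρ x - μ) 0 / γ with ha
  have ha0 : 0 ≤ a := div_nonneg (le_max_right _ _) hγ.le
  have hρ : ρ x = a ^ (3 / 2 : ℝ) := h.eq x
  have h53 : ρ x ^ (5 / 3 : ℝ) = a * ρ x := by
    rw [hρ, ← Real.rpow_mul ha0]
    rcases ha0.eq_or_lt with h0 | hpos
    · rw [← h0, Real.zero_rpow (by norm_num)]; simp
    · rw [show (3 / 2 : ℝ) * (5 / 3) = 1 + 3 / 2 by norm_num, Real.rpow_add hpos, Real.rpow_one]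
  have hga : γ * a = max (pot m x - pot ρ x - μ) 0 := by
    rw [ha]; field_simp
  rw [h53, ← mul_assoc, hga]
  rcases le_total (pot m x - pot ρ x - μ) 0 with hle | hle
  · have : ρ x = 0 := by
      rw [hρ, ha, max_eq_right hle, zero_div, Real.zero_rpow (by norm_num)]
    rw [this]; simp
  · rw [max_eq_left hle]; ring

/-- The integrated Thomas-Fermi equation and the virial inequality. -/
theorem IsTF_key (hP : PotStatement) (hV : VirialStatement) {γ μ : ℝ} {m ρ : E3 → ℝ} (hγ : 0 < γ)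
    (hμ : 0 < μ) (hm : BC m) (hm0 : ∀ x, 0 ≤ m x) (h : IsTF γ μ m ρ) :
    2 * (γ * kin ρ) ≤ (∫ x, pot m x * ρ x) - dir ρ := by
  have hvir := hV γ μ m ρ hγ hμ hm hm0 h
  have h0 := IsTF_nonneg hγ h
  have hcm : Continuous (pot m) := (hP m hm).2.2.2.1.continuous
  have hcρ : Continuous (pot ρ) := (hP ρ h.bc).2.2.2.1.continuous
  have i1 : Integrable (fun x => ρ x * pot m x) := H94.BC_integrable (H94.BC_mul_cont h.bc hcm)
  have i2 : Integrable (fun x => ρ x * pot ρ x) := H94.BC_integrable (H94.BC_mul_cont h.bc hcρ)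
  have i3 : Integrable (fun x => μ * ρ x) := (H94.BC_integrable h.bc).const_mul μ
  have hint : γ * ∫ x, ρ x ^ (5 / 3 : ℝ) =
      (∫ x, ρ x * pot m x) - (∫ x, ρ x * pot ρ x) - μ * ∫ x, ρ x := by
    have e1 : ∫ x, (ρ x * pot m x - ρ x * pot ρ x - μ * ρ x) =
        (∫ x, ρ x * pot m x) - (∫ x, ρ x * pot ρ x) - μ * ∫ x, ρ x := by
      rw [integral_sub (f := fun x => ρ x * pot m x - ρ x * pot ρ x) (i1.sub i2) i3,
        integral_sub i1 i2, integral_const_mul]
    rw [← integral_const_mul, ← e1]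
    congr 1
    funext x
    exact IsTF_point hγ h x
  have hcomm : ∫ x, pot m x * ρ x = ∫ x, ρ x * pot m x := by
    congr 1; funext x; ring
  rw [hcomm]
  unfold kin dir at *
  linarith

/-- Uniform bound of the kinetic term of Thomas-Fermi solutions. -/
theorem IsTF_kin_bound (hP : PotStatement) {m : E3 → ℝ} (hm : BC m) (hm0 : ∀ x, 0 ≤ m x)
    {γ₀ μ₀ : ℝ} (hγ₀ : 0 < γ₀) (hμ₀ : 0 < μ₀) :
    ∃ C : ℝ, ∀ (γ μ : ℝ) (ρ : E3 → ℝ), γ₀ ≤ γ → μ₀ ≤ μ → IsTF γ μ m ρ → kin ρ ≤ C := by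
  obtain ⟨C, hC⟩ := (hP m hm).2.2.1
  have hC0 : 0 ≤ C := le_trans (by positivity) (hC 0)
  have hV : ∀ x, pot m x * (1 + ‖x‖) ≤ C := fun x =>
    le_trans (mul_le_mul_of_nonneg_right (le_abs_self _) (by positivity)) (hC x)
  have hVC : ∀ x, pot m x ≤ C := by
    intro x
    have h1 := hV x
    have h2 := H94.pot_nonneg hm0 x
    nlinarith [norm_nonneg x, mul_nonneg h2 (norm_nonneg x)]
  set r := C / μ₀ with hr
  set B := Metric.closedBall (0 : E3) r with hB
  have hBfin : volume B ≠ ⊤ := (isCompact_closedBall (0 : E3) r).measure_lt_top.ne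
  set M := ((C / γ₀) ^ (3 / 2 : ℝ)) ^ (5 / 3 : ℝ) with hM
  refine ⟨3 / 5 * (M * volume.real B), ?_⟩
  intro γ μ ρ hγ hμ h
  have hγ0 : 0 < γ := lt_of_lt_of_le hγ₀ hγ
  have h0 := IsTF_nonneg hγ0 h
  have hpρ := fun x => H94.pot_nonneg h0 x
  have hle : ∀ x, ρ x ≤ (C / γ₀) ^ (3 / 2 : ℝ) := by
    intro x
    rw [h.eq x]
    apply Real.rpow_le_rpow (div_nonneg (le_max_right _ _) hγ0.le) _ (by norm_num)
    apply div_le_div₀ hC0 _ hγ₀ hγ
    apply max_le _ hC0
    have := hVC x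
    have := hpρ x
    linarith
  have hsupp : ∀ x, x ∉ B → ρ x = 0 := by
    intro x hx
    have hx' : r < ‖x‖ := by
      simpa [hB, Metric.mem_closedBall, dist_zero_right] using hx
    have h1 : pot m x ≤ μ₀ := by
      have h2 := hV x
      have h3 : C < μ₀ * ‖x‖ := by
        rw [hr, div_lt_iff₀ hμ₀] at hx'
        linarith
      by_contra hcon
      push Not at hcon
      nlinarith [norm_nonneg x]
    rw [h.eq x, max_eq_right, zero_div, Real.zero_rpow (by norm_num)]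
    have := hpρ x
    linarith
  have hbound : ∫ x, ρ x ^ (5 / 3 : ℝ) ≤ M * volume.real B := by
    have hind : ∀ x, ρ x ^ (5 / 3 : ℝ) ≤ B.indicator (fun _ => M) x := by
      intro x
      by_cases hx : x ∈ B
      · rw [indicator_of_mem hx]
        exact Real.rpow_le_rpow (h0 x) (hle x) (by norm_num)
      · rw [indicator_of_notMem hx, hsupp x hx, Real.zero_rpow (by norm_num)]
    calc ∫ x, ρ x ^ (5 / 3 : ℝ) ≤ ∫ x, B.indicator (fun _ => M) x := by
          apply integral_mono (BC_adm h.bc h0).int53 _ hind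
          rw [integrable_indicator_iff (Metric.isClosed_closedBall.measurableSet)]
          exact integrableOn_const hBfin
      _ = M * volume.real B := by
          rw [integral_indicator Metric.isClosed_closedBall.measurableSet, setIntegral_const, smul_eq_mul,
            mul_comm]
  unfold kin
  linarith

theorem fun0_scale {γ τ μ : ℝ} (hτ : 0 < τ) (V σ : E3 → ℝ) :
    fun0 γ τ μ V σ = τ * fun0 (τ * γ) 1 (μ / τ) V σ := by
  unfold fun0
  field_simp

/-- TAU. -/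
theorem tau (hP : PotStatement) (hE : ExistStatement) (hV : VirialStatement) : TauStatement := by
  intro γ μ τ₁ τ₂ m hγ hμ hτ₁ hτ hm hm0
  have hτ₂ : 0 < τ₂ := lt_of_lt_of_le hτ₁ hτ
  have hex : ∀ τ : ℝ, 0 < τ → ∃ ρ : E3 → ℝ, IsTF (τ * γ) (μ / τ) m ρ ∧
      ∀ σ : E3 → ℝ, Adm σ → fun0 γ τ μ (pot m) ρ ≤ fun0 γ τ μ (pot m) σ := by
    intro τ ht
    obtain ⟨ρ, h1, h2⟩ := hE (τ * γ) (μ / τ) m (by positivity) (by positivity) hm hm0
    refine ⟨ρ, h1, fun σ hσ => ?_⟩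
    rw [fun0_scale ht, fun0_scale ht]
    exact mul_le_mul_of_nonneg_left (h2 σ hσ) ht.le
  choose! ρ hρ hmin using hex
  obtain ⟨C, hC⟩ := IsTF_kin_bound hP hm hm0 (γ₀ := τ₁ * γ) (μ₀ := μ / τ₂) (by positivity)
    (by positivity)
  refine ⟨ρ τ₂, hρ τ₂ hτ₂, fun σ hσ => ?_⟩
  have hstep : ∀ s t, τ₁ ≤ s → s ≤ t → t ≤ τ₂ → fun0 γ t μ (pot m) (ρ t) ≤
      fun0 γ s μ (pot m) (ρ s) + γ * C * (t - s) ^ 2 := by
    intro s t hs hst ht
    have hs0 : 0 < s := lt_of_lt_of_le hτ₁ hs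
    have ht0 : 0 < t := lt_of_lt_of_le hs0 hst
    have hTF := hρ s hs0
    have hgs : 0 < s * γ := by positivity
    have hadm : Adm (ρ s) := BC_adm hTF.bc (IsTF_nonneg hgs hTF)
    have h1 := hmin t ht0 (ρ s) hadm
    have h2 := IsTF_key hP hV hgs (by positivity) hm hm0 hTF
    have h3 : kin (ρ s) ≤ C := by
      refine hC (s * γ) (μ / s) (ρ s) ?_ ?_ hTF
      · exact mul_le_mul_of_nonneg_right hs hγ.le
      · exact div_le_div_of_nonneg_left hμ.le hs0 (hst.trans ht)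
    have h4 : fun0 γ t μ (pot m) (ρ s) = fun0 γ s μ (pot m) (ρ s) +
        (t - s) * (2 * (s * γ * kin (ρ s)) - ((∫ x, pot m x * ρ s x) - dir (ρ s))) +
        γ * kin (ρ s) * (t - s) ^ 2 := by
      unfold fun0
      ring
    have h5 : (t - s) * (2 * (s * γ * kin (ρ s)) - ((∫ x, pot m x * ρ s x) - dir (ρ s))) ≤ 0 :=
      mul_nonpos_of_nonneg_of_nonpos (by linarith) (by linarith)
    have h6 : γ * kin (ρ s) * (t - s) ^ 2 ≤ γ * C * (t - s) ^ 2 :=
      mul_le_mul_of_nonneg_right (mul_le_mul_of_nonneg_left h3 hγ.le) (sq_nonneg _)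
    linarith
  have hJ := le_of_quadratic_steps (f := fun t => fun0 γ t μ (pot m) (ρ t)) hτ hstep
  exact hJ.trans (hmin τ₁ hτ₁ σ hσ)

end Pool.Agent.Lib.MP_405077_mp.H35
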